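import Pool.Agent.Helper79.GL4.GoalsR

/-!
# The cubic character of the lines over the field with three elements
-/

set_option linter.unusedVariables false

namespace Pool.Agent.Helper74.GL4ES3

open Module Submodule GL4
open scoped ComplexOrder

/-- the cubic invariant -/
def e {R : Type*} [CommRing R] (a b c d : R) : R := (1 - c ^ 2) * b * d + c * (a + d)

theorem e_mul_zmod : ∀ a b c d a' b' c' d' : ZMod 3, a * d - b * c = 1 → a' * d' - b' * c' = 1 →
    e (a * a' + b * c') (a * b' + b * d') (c * a' + d * c') (c * b' + d * d')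
      = e a b c d + e a' b' c' d' := by
  unfold e
  decide

theorem e_fix_zmod : ∀ a b c d : ZMod 3, a * d - b * c = 1 → e a b c d ≠ 0 →
    ∃ x y z t : ZMod 3, (x ≠ 0 ∨ y ≠ 0) ∧ x * (x * b + y * d) - y * (x * a + y * c) = 0 ∧
      z * (z * b + t * d) - t * (z * a + t * c) ≠ 0 ∧
      z * ((z * a + t * c) * b + (z * b + t * d) * d) -
        t * ((z * a + t * c) * a + (z * b + t * d) * c) ≠ 0 := by
  unfold e
  decide

theorem e_s_zmod : ∀ l p q : ZMod 3, (l = 1 ∨ l = -1) → (p ≠ 0 ∨ q ≠ 0) →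
    e (1 + l * p * q) (-(l * p ^ 2)) (l * q ^ 2) (1 - l * p * q) = - l := by
  unfold e
  decide

theorem u_zmod : ∀ x : ZMod 3, x ≠ 0 → x = 1 ∨ x = -1 := by decide

section transfer

variable {F : Type} [Field F] (φ : F ≃+* ZMod 3)

include φ

theorem map_e (a b c d : F) : φ (e a b c d) = e (φ a) (φ b) (φ c) (φ d) := by
  simp [e]

theorem e_mul (a b c d a' b' c' d' : F) (h : a * d - b * c = 1) (h' : a' * d' - b' * c' = 1) :
    e (a * a' + b * c') (a * b' + b * d') (c * a' + d * c') (c * b' + d * d')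
      = e a b c d + e a' b' c' d' := by
  apply φ.injective
  rw [map_add, map_e, map_e, map_e]
  simp only [map_add, map_mul]
  apply e_mul_zmod
  · rw [← map_mul, ← map_mul, ← map_sub, h, map_one]
  · rw [← map_mul, ← map_mul, ← map_sub, h', map_one]

theorem e_fix (a b c d : F) (h : a * d - b * c = 1) (he : e a b c d ≠ 0) :
    ∃ x y z t : F, (x ≠ 0 ∨ y ≠ 0) ∧ x * (x * b + y * d) - y * (x * a + y * c) = 0 ∧
      z * (z * b + t * d) - t * (z * a + t * c) ≠ 0 ∧
      z * ((z * a + t * c) * b + (z * b + t * d) * d) -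
        t * ((z * a + t * c) * a + (z * b + t * d) * c) ≠ 0 := by
  obtain ⟨x, y, z, t, h1, h2, h3, h4⟩ := e_fix_zmod (φ a) (φ b) (φ c) (φ d)
    (by rw [← map_mul, ← map_mul, ← map_sub, h, map_one])
    (by rw [← map_e]; exact fun h0 => he ((map_eq_zero_iff φ φ.injective).1 h0))
  obtain ⟨x, rfl⟩ := φ.surjective x
  obtain ⟨y, rfl⟩ := φ.surjective y
  obtain ⟨z, rfl⟩ := φ.surjective z
  obtain ⟨t, rfl⟩ := φ.surjective t
  refine ⟨x, y, z, t, ?_, ?_, ?_, ?_⟩
  · rcases h1 with h1 | h1
    · exact Or.inl (fun h0 => h1 (by rw [h0, map_zero]))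
    · exact Or.inr (fun h0 => h1 (by rw [h0, map_zero]))
  · apply φ.injective
    simpa only [map_add, map_mul, map_sub, map_zero] using h2
  · intro h0
    apply h3
    have := congrArg φ h0
    simpa only [map_add, map_mul, map_sub, map_zero] using this
  · intro h0
    apply h4
    have := congrArg φ h0
    simpa only [map_add, map_mul, map_sub, map_zero] using this

theorem e_s (l p q : F) (hl : l = 1 ∨ l = -1) (hpq : p ≠ 0 ∨ q ≠ 0) :
    e (1 + l * p * q) (-(l * p ^ 2)) (l * q ^ 2) (1 - l * p * q) = - l := by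
  apply φ.injective
  rw [map_e]
  simp only [map_add, map_mul, map_neg, map_sub, map_pow, map_one]
  apply e_s_zmod
  · rcases hl with rfl | rfl
    · left; exact map_one φ
    · right; rw [map_neg, map_one]
  · rcases hpq with h1 | h1
    · exact Or.inl (fun h0 => h1 ((map_eq_zero_iff φ φ.injective).1 h0))
    · exact Or.inr (fun h0 => h1 ((map_eq_zero_iff φ φ.injective).1 h0))

theorem u_F (x : F) (hx : x ≠ 0) : x = 1 ∨ x = -1 := by
  rcases u_zmod (φ x) (fun h0 => hx ((map_eq_zero_iff φ φ.injective).1 h0)) with h | h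
  · left; apply φ.injective; rw [h, map_one]
  · right; apply φ.injective; rw [h, map_neg, map_one]

theorem one_ne (h : (1 : F) = -1) : False := by
  have := congrArg φ h
  rw [map_neg, map_one] at this
  revert this
  decide

end transfer

/-- bases of lines -/
abbrev Bs (F : Type) [Field F] (V : Type) [AddCommGroup V] [Module F V] : Type :=
  {x : V × V // LinearIndependent F ![x.1, x.2]}

section act

variable {F : Type} [Field F] {V : Type} [AddCommGroup V] [Module F V]

theorem bs_ext {x y : Bs F V} (h1 : x.1.1 = y.1.1) (h2 : x.1.2 = y.1.2) : x = y :=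
  Subtype.ext (Prod.ext h1 h2)

theorem bs_iff {v w : V} : LinearIndependent F ![v, w] ↔
    ∀ s t : F, s • v + t • w = 0 → s = 0 ∧ t = 0 := LinearIndependent.pair_iff

theorem indep_map (g : V ≃ₗ[F] V) {v w : V} (h : LinearIndependent F ![v, w]) :
    LinearIndependent F ![g v, g w] := by
  rw [bs_iff] at h ⊢
  intro s t hst
  apply h
  apply g.injective
  rw [map_add, map_smul, map_smul, map_zero]
  exact hst

theorem indep_mat {a b c d : F} (hd : a * d - b * c ≠ 0) {v w : V}
    (h : LinearIndependent F ![v, w]) :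
    LinearIndependent F ![a • v + b • w, c • v + d • w] := by
  rw [bs_iff] at h ⊢
  intro s t hst
  have e1 : (s * a + t * c) • v + (s * b + t * d) • w = 0 := by
    rw [← hst]
    module
  obtain ⟨h1, h2⟩ := h _ _ e1
  constructor
  · have : s * (a * d - b * c) = 0 := by linear_combination d * h1 - c * h2
    exact (mul_eq_zero.1 this).resolve_right hd
  · have : t * (a * d - b * c) = 0 := by linear_combination a * h2 - b * h1
    exact (mul_eq_zero.1 this).resolve_right hd

theorem sl_det (t : Matrix.SpecialLinearGroup (Fin 2) F) :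
    t.1 0 0 * t.1 1 1 - t.1 0 1 * t.1 1 0 = 1 := by
  have := t.2
  rwa [Matrix.det_fin_two] at this

instance actG : MulAction (V ≃ₗ[F] V) (Bs F V) where
  smul g x := ⟨(g x.1.1, g x.1.2), indep_map g x.2⟩
  one_smul x := bs_ext rfl rfl
  mul_smul g h x := bs_ext rfl rfl

theorem G1 (g : V ≃ₗ[F] V) (x : Bs F V) : (g • x).1.1 = g x.1.1 := rfl
theorem G2 (g : V ≃ₗ[F] V) (x : Bs F V) : (g • x).1.2 = g x.1.2 := rfl

instance actT : MulAction (Matrix.SpecialLinearGroup (Fin 2) F) (Bs F V) where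
  smul t x := ⟨(t.1 0 0 • x.1.1 + t.1 0 1 • x.1.2, t.1 1 0 • x.1.1 + t.1 1 1 • x.1.2),
    indep_mat (by rw [sl_det]; exact one_ne_zero) x.2⟩
  one_smul x := bs_ext (by
    show (1 : Matrix (Fin 2) (Fin 2) F) 0 0 • x.1.1 + (1 : Matrix (Fin 2) (Fin 2) F) 0 1 • x.1.2 = _
    simp) (by
    show (1 : Matrix (Fin 2) (Fin 2) F) 1 0 • x.1.1 + (1 : Matrix (Fin 2) (Fin 2) F) 1 1 • x.1.2 = _
    simp)
  mul_smul s t x := bs_ext (by
    show (s.1 * t.1) 0 0 • x.1.1 + (s.1 * t.1) 0 1 • x.1.2 =
      s.1 0 0 • (t.1 0 0 • x.1.1 + t.1 0 1 • x.1.2) + s.1 0 1 • (t.1 1 0 • x.1.1 + t.1 1 1 • x.1.2)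
    simp only [Matrix.mul_apply, Fin.sum_univ_two]
    module) (by
    show (s.1 * t.1) 1 0 • x.1.1 + (s.1 * t.1) 1 1 • x.1.2 =
      s.1 1 0 • (t.1 0 0 • x.1.1 + t.1 0 1 • x.1.2) + s.1 1 1 • (t.1 1 0 • x.1.1 + t.1 1 1 • x.1.2)
    simp only [Matrix.mul_apply, Fin.sum_univ_two]
    module)

theorem T1 (t : Matrix.SpecialLinearGroup (Fin 2) F) (x : Bs F V) :
    (t • x).1.1 = t.1 0 0 • x.1.1 + t.1 0 1 • x.1.2 := rfl
theorem T2 (t : Matrix.SpecialLinearGroup (Fin 2) F) (x : Bs F V) :
    (t • x).1.2 = t.1 1 0 • x.1.1 + t.1 1 1 • x.1.2 := rfl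

instance comm : SMulCommClass (V ≃ₗ[F] V) (Matrix.SpecialLinearGroup (Fin 2) F) (Bs F V) where
  smul_comm g t x := bs_ext (by rw [G1, T1, T1, G1, G2]; simp) (by rw [G2, T2, T2, G1, G2]; simp)

/-- matrices -/
def mk4 (a b c d : F) (h : a * d - b * c = 1) : Matrix.SpecialLinearGroup (Fin 2) F :=
  ⟨!![a, b; c, d], by rw [Matrix.det_fin_two_of]; exact h⟩

theorem mk4_1 (a b c d : F) (h : a * d - b * c = 1) (x : Bs F V) :
    (mk4 a b c d h • x).1.1 = a • x.1.1 + b • x.1.2 := rfl

theorem mk4_2 (a b c d : F) (h : a * d - b * c = 1) (x : Bs F V) :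
    (mk4 a b c d h • x).1.2 = c • x.1.1 + d • x.1.2 := rfl

/-- the matrix of a transvection -/
def sm (l p q : F) : Matrix.SpecialLinearGroup (Fin 2) F :=
  ⟨!![1 + l * p * q, -(l * p ^ 2); l * q ^ 2, 1 - l * p * q], by
    rw [Matrix.det_fin_two_of]; ring⟩

/-- the transvection -/
def tv (f : Dual F V) (n : V) (h : f n = 0) : V ≃ₗ[F] V := LinearEquiv.transvection h

theorem tv_apply (f : Dual F V) (n : V) (h : f n = 0) (u : V) : tv f n h u = u + f u • n :=
  LinearEquiv.transvection.apply h u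

theorem tv_smul (f : Dual F V) (n : V) (h : f n = 0) (x : Bs F V) (l : F)
    (hn : n = l • (f x.1.2 • x.1.1 - f x.1.1 • x.1.2)) :
    tv f n h • x = sm l (f x.1.1) (f x.1.2) • x := by
  apply bs_ext
  · rw [G1, T1, tv_apply, hn]
    simp only [sm, Matrix.of_apply, Matrix.cons_val', Matrix.cons_val_zero, Matrix.cons_val_one,
      Matrix.cons_val_fin_one]
    module
  · rw [G2, T2, tv_apply, hn]
    simp only [sm, Matrix.of_apply, Matrix.cons_val', Matrix.cons_val_zero, Matrix.cons_val_one,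
      Matrix.cons_val_fin_one]
    module

/-- the invariant on `SL₂` -/
def eT (t : Matrix.SpecialLinearGroup (Fin 2) F) : F := e (t.1 0 0) (t.1 0 1) (t.1 1 0) (t.1 1 1)

theorem eT_mul (φ : F ≃+* ZMod 3) (s t : Matrix.SpecialLinearGroup (Fin 2) F) :
    eT (s * t) = eT s + eT t := by
  have h := e_mul φ _ _ _ _ _ _ _ _ (sl_det s) (sl_det t)
  unfold eT
  rw [← h]
  congr 1 <;>
  · show (s.1 * t.1) _ _ = _
    simp only [Matrix.mul_apply, Fin.sum_univ_two]

theorem eT_one : eT (1 : Matrix.SpecialLinearGroup (Fin 2) F) = 0 := by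
  unfold eT e
  simp

theorem eT_sm (φ : F ≃+* ZMod 3) (l p q : F) (hl : l = 1 ∨ l = -1) (hpq : p ≠ 0 ∨ q ≠ 0) :
    eT (sm l p q) = -l := by
  rw [← e_s φ l p q hl hpq]
  rfl

/-- the linear character -/
noncomputable def lam (φ : F ≃+* ZMod 3) : Matrix.SpecialLinearGroup (Fin 2) F →* ℂˣ :=
  MonoidHom.toHomUnits
    { toFun := fun t => (ZMod.stdAddChar (φ (eT t)) : ℂ)
      map_one' := by rw [eT_one, map_zero, AddChar.map_zero_eq_one]
      map_mul' := fun s t => by rw [eT_mul φ, map_add, AddChar.map_add_eq_mul] }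

theorem lam_eq (φ : F ≃+* ZMod 3) (s t : Matrix.SpecialLinearGroup (Fin 2) F)
    (h : lam φ s = lam φ t) : eT s = eT t := by
  have h1 := congrArg (fun u : ℂˣ => (u : ℂ)) h
  simp only [lam, MonoidHom.coe_toHomUnits, MonoidHom.coe_mk, OneHom.coe_mk] at h1
  exact φ.injective (ZMod.injective_stdAddChar h1)

theorem lam_ne_one (φ : F ≃+* ZMod 3) (s : Matrix.SpecialLinearGroup (Fin 2) F)
    (h : lam φ s ≠ 1) : eT s ≠ 0 := by
  intro h0
  apply h
  apply Units.ext
  simp only [lam, MonoidHom.coe_toHomUnits, MonoidHom.coe_mk, OneHom.coe_mk, h0, map_zero,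
    AddChar.map_zero_eq_one, Units.val_one]

theorem f_ne {v w : V} (h : LinearIndependent F ![v, w]) (f : Dual F V) (hf : f v ≠ 0 ∨ f w ≠ 0) :
    f w • v - f v • w ≠ 0 := by
  intro h0
  rw [bs_iff] at h
  have := h (f w) (- f v) (by rw [neg_smul]; rwa [← sub_eq_add_neg])
  rcases hf with h1 | h1
  · exact h1 (neg_eq_zero.1 this.2)
  · exact h1 this.1

theorem trans_raw [FiniteDimensional F V] (u u' : Fin 2 → V) (hu : LinearIndependent F u)
    (hu' : LinearIndependent F u') : ∃ g : V ≃ₗ[F] V, ∀ i, g (u i) = u' i := by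
  let E := (Basis.span hu).equiv (Basis.span hu') (Equiv.refl (Fin 2))
  obtain ⟨g, hg⟩ := Submodule.exists_linearEquiv_restrict_eq E
  refine ⟨g, fun i => ?_⟩
  have h1 := hg ((Basis.span hu) i)
  rw [Basis.equiv_apply, Equiv.refl_apply] at h1
  have h2 : (((Basis.span hu) i : span F (Set.range u)) : V) = u i := by
    rw [Basis.span_apply]
  have h3 : (((Basis.span hu') i : span F (Set.range u')) : V) = u' i := by
    rw [Basis.span_apply]
  rw [h2, h3] at h1
  exact h1.symm

theorem trans [FiniteDimensional F V] (x y : Bs F V) : ∃ g : V ≃ₗ[F] V, g • x = y := by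
  obtain ⟨g, hg⟩ := trans_raw _ _ x.2 y.2
  exact ⟨g, bs_ext (hg 0) (hg 1)⟩

theorem free (t : Matrix.SpecialLinearGroup (Fin 2) F) (x : Bs F V) (h : t • x = x) : t = 1 := by
  have h1 : t.1 0 0 • x.1.1 + t.1 0 1 • x.1.2 = x.1.1 := congrArg (fun z : Bs F V => z.1.1) h
  have h2 : t.1 1 0 • x.1.1 + t.1 1 1 • x.1.2 = x.1.2 := congrArg (fun z : Bs F V => z.1.2) h
  have hx := bs_iff.1 x.2
  obtain ⟨a1, a2⟩ := hx (t.1 0 0 - 1) (t.1 0 1) (by
    have : (t.1 0 0 - 1) • x.1.1 + t.1 0 1 • x.1.2
      = (t.1 0 0 • x.1.1 + t.1 0 1 • x.1.2) - x.1.1 := by module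
    rw [this, h1, sub_self])
  obtain ⟨b1, b2⟩ := hx (t.1 1 0) (t.1 1 1 - 1) (by
    have : t.1 1 0 • x.1.1 + (t.1 1 1 - 1) • x.1.2
      = (t.1 1 0 • x.1.1 + t.1 1 1 • x.1.2) - x.1.2 := by module
    rw [this, h2, sub_self])
  apply Subtype.ext
  show t.1 = (1 : Matrix (Fin 2) (Fin 2) F)
  ext i j
  fin_cases i <;> fin_cases j
  · simpa using sub_eq_zero.1 a1
  · simpa using a2
  · simpa using b1
  · simpa using sub_eq_zero.1 b2

theorem mackey (φ : F ≃+* ZMod 3) (x y : Bs F V)
    (hxy : ¬ ∃ t : Matrix.SpecialLinearGroup (Fin 2) F, t • x = y) :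
    ∃ (g : V ≃ₗ[F] V) (s t : Matrix.SpecialLinearGroup (Fin 2) F),
      g • x = s • x ∧ g • y = t • y ∧ lam φ s ≠ lam φ t := by
  obtain ⟨⟨v, w⟩, hx⟩ := x
  obtain ⟨⟨v', w'⟩, hy⟩ := y
  simp only at hx hy
  by_cases hin : v ∈ span F {v', w'} ∧ w ∈ span F {v', w'}
  · obtain ⟨a, b, hv⟩ := mem_span_pair.1 hin.1
    obtain ⟨c, d, hw⟩ := mem_span_pair.1 hin.2
    have hind := bs_iff.1 hx
    have hd : a * d - b * c ≠ 0 := by
      intro h0
      -- `d v - b w = (ad - bc) v' = 0`, `-c v + a w = 0`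
      have e1 : d • v + (-b) • w = 0 := by
        rw [← hv, ← hw]
        have : d • (a • v' + b • w') + -b • (c • v' + d • w') = (a * d - b * c) • v' := by module
        rw [this, h0, zero_smul]
      have e2 : (-c) • v + a • w = 0 := by
        rw [← hv, ← hw]
        have : -c • (a • v' + b • w') + a • (c • v' + d • w') = (a * d - b * c) • w' := by module
        rw [this, h0, zero_smul]
      obtain ⟨d0, b0⟩ := hind _ _ e1
      obtain ⟨c0, a0⟩ := hind _ _ e2
      have hv0 : v = 0 := by rw [← hv, a0, neg_eq_zero.1 b0]; simp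
      have := (hind 1 0 (by rw [hv0]; simp)).1
      exact one_ne_zero this
    rcases u_F φ _ hd with h1 | h1
    · exfalso
      apply hxy
      refine ⟨mk4 d (-b) (-c) a (by linear_combination h1), ?_⟩
      apply bs_ext
      · rw [mk4_1]
        simp only
        rw [← hv, ← hw]
        have : d • (a • v' + b • w') + -b • (c • v' + d • w') = (a * d - b * c) • v' := by module
        rw [this, h1, one_smul]
      · rw [mk4_2]
        simp only
        rw [← hv, ← hw]
        have : -c • (a • v' + b • w') + a • (c • v' + d • w') = (a * d - b * c) • w' := by module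
        rw [this, h1, one_smul]
    · -- determinant `-1`
      have hv'0 : v ≠ 0 := by
        intro h0
        exact one_ne_zero (hind 1 0 (by rw [h0]; simp)).1
      obtain ⟨f, hf⟩ : ∃ f : Dual F V, f v ≠ 0 := by
        by_contra hcon
        push Not at hcon
        exact hv'0 ((Module.forall_dual_apply_eq_zero_iff F v).1 hcon)
      have hfn : f (f w • v - f v • w) = 0 := by
        rw [map_sub, map_smul, map_smul, smul_eq_mul, smul_eq_mul]
        ring
      have e1 : f w • v - f v • w = (-1 : F) • (f w' • v' - f v' • w') := by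
        have hfv : f v = a * f v' + b * f w' := by rw [← hv]; simp
        have hfw : f w = c * f v' + d * f w' := by rw [← hw]; simp
        rw [hfv, hfw, ← h1, ← hv, ← hw]
        module
      have hf' : f v' ≠ 0 ∨ f w' ≠ 0 := by
        by_contra hcon
        push Not at hcon
        apply hf
        rw [← hv]
        simp [hcon.1, hcon.2]
      refine ⟨tv f _ hfn, sm 1 (f v) (f w), sm (-1) (f v') (f w'), ?_, ?_, ?_⟩
      · exact tv_smul f _ hfn ⟨(v, w), hx⟩ 1 (by rw [one_smul])
      · exact tv_smul f _ hfn ⟨(v', w'), hy⟩ (-1) e1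
      · intro hl
        have := lam_eq φ _ _ hl
        rw [eT_sm φ _ _ _ (Or.inl rfl) (Or.inl hf), eT_sm φ _ _ _ (Or.inr rfl) hf', neg_neg] at this
        exact one_ne φ this.symm
  · obtain ⟨f, hf, hf'⟩ : ∃ f : Dual F V, (f v ≠ 0 ∨ f w ≠ 0) ∧ (f v' = 0 ∧ f w' = 0) := by
      rw [not_and_or] at hin
      rcases hin with h | h
      · obtain ⟨f, h1, h2⟩ := Submodule.exists_le_ker_of_notMem h
        refine ⟨f, Or.inl h1, ?_, ?_⟩
        · exact h2 (subset_span (by simp))
        · exact h2 (subset_span (by simp))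
      · obtain ⟨f, h1, h2⟩ := Submodule.exists_le_ker_of_notMem h
        refine ⟨f, Or.inr h1, ?_, ?_⟩
        · exact h2 (subset_span (by simp))
        · exact h2 (subset_span (by simp))
    have hfn : f (f w • v - f v • w) = 0 := by
      rw [map_sub, map_smul, map_smul, smul_eq_mul, smul_eq_mul]
      ring
    refine ⟨tv f _ hfn, sm 1 (f v) (f w), 1, ?_, ?_, ?_⟩
    · exact tv_smul f _ hfn ⟨(v, w), hx⟩ 1 (by rw [one_smul])
    · have hh : tv f _ hfn • (⟨(v', w'), hy⟩ : Bs F V) = ⟨(v', w'), hy⟩ := by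
        apply bs_ext
        · rw [G1, tv_apply]
          simp [hf'.1]
        · rw [G2, tv_apply]
          simp [hf'.2]
      exact hh.trans (one_smul _ _).symm
    · intro hl
      have := lam_eq φ _ _ hl
      rw [eT_sm φ _ _ _ (Or.inl rfl) hf, eT_one, neg_eq_zero] at this
      exact one_ne_zero this

end act

theorem es3 (h : GL4.ML) : GL4.ES3 := by
  intro F _ _ V _ _ _ hdim hcard
  have : Fintype F := Fintype.ofFinite F
  have hc : Fintype.card F = 3 := by rw [← Nat.card_eq_fintype_card, hcard]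
  let φ : F ≃+* ZMod 3 := (ZMod.ringEquivOfPrime F Nat.prime_three hc).symm
  have hVfin : Finite V := Module.finite_of_finite F
  have : Finite (Bs F V) := inferInstanceAs (Finite {x : V × V // LinearIndependent F ![x.1, x.2]})
  have hne : Nonempty (Bs F V) := by
    obtain ⟨v, hv⟩ : ∃ u : Fin 2 → V, LinearIndependent F u := by
      let b := finBasis F V
      exact ⟨fun i => b (Fin.castLE hdim i), b.linearIndependent.comp _ (Fin.castLE_injective _)⟩
    refine ⟨⟨(v 0, v 1), ?_⟩⟩
    have : ![v 0, v 1] = v := by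
      ext i
      fin_cases i <;> rfl
    show LinearIndependent F ![v 0, v 1]
    rw [this]
    exact hv
  obtain ⟨χ, h1, h2, h3⟩ := h (V ≃ₗ[F] V) (Matrix.SpecialLinearGroup (Fin 2) F) (Bs F V) (lam φ)
    (fun t x => free t x)
    (fun x y => by
      obtain ⟨g, hg⟩ := trans x y
      exact ⟨g, 1, by rw [one_smul]; exact hg⟩)
    (fun x y hxy => mackey φ x y hxy)
    (by
      obtain ⟨x⟩ := hne
      have hx0 : x.1.1 ≠ 0 := by
        intro h0
        have := (bs_iff.1 x.2 1 0 (by rw [h0]; simp)).1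
        exact one_ne_zero this
      obtain ⟨f, hf⟩ : ∃ f : Dual F V, f x.1.1 ≠ 0 := by
        by_contra hcon
        push Not at hcon
        exact hx0 ((Module.forall_dual_apply_eq_zero_iff F x.1.1).1 hcon)
      have hfn : f (f x.1.2 • x.1.1 - f x.1.1 • x.1.2) = 0 := by
        rw [map_sub, map_smul, map_smul, smul_eq_mul, smul_eq_mul]
        ring
      refine ⟨x, tv f _ hfn, sm 1 (f x.1.1) (f x.1.2), tv_smul f _ hfn x 1 (by rw [one_smul]), ?_⟩
      intro hl
      have hl' : lam φ (sm 1 (f x.1.1) (f x.1.2)) = lam φ 1 := by rw [hl, map_one]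
      have := lam_eq φ _ _ hl'
      rw [eT_sm φ _ _ _ (Or.inl rfl) (Or.inl hf), eT_one, neg_eq_zero] at this
      exact one_ne_zero this)
  refine ⟨χ, h1, h2, fun K hK L hL => ?_⟩
  -- a basis of `L`
  obtain ⟨v, w, hvw, hspan⟩ : ∃ v w : V, LinearIndependent F ![v, w] ∧ L = span F {v, w} := by
    let b : Basis (Fin 2) F L := finBasisOfFinrankEq F L hL
    refine ⟨b 0, b 1, ?_, ?_⟩
    · have hb := b.linearIndependent.map' L.subtype (Submodule.ker_subtype L)
      have : ![((b 0 : L) : V), ((b 1 : L) : V)] = L.subtype ∘ b := by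
        ext i
        fin_cases i <;> rfl
      rw [this]
      exact hb
    · have hb := b.span_eq
      have h4 : (span F (Set.range b)).map L.subtype = L := by rw [hb, Submodule.map_top,
        Submodule.range_subtype]
      have h5 : span F {((b 0 : L) : V), ((b 1 : L) : V)} = (span F (Set.range b)).map L.subtype := ?_
      · exact (h5.trans h4).symm
      rw [Submodule.map_span]
      congr 1
      symm
      ext u
      constructor
      · rintro ⟨z, ⟨i, rfl⟩, rfl⟩
        fin_cases i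
        · left; rfl
        · right; rfl
      · rintro (rfl | h5)
        · exact ⟨b 0, ⟨0, rfl⟩, rfl⟩
        · rw [Set.mem_singleton_iff] at h5
          subst h5
          exact ⟨b 1, ⟨1, rfl⟩, rfl⟩
  obtain ⟨k, hk, t, hkt, ht⟩ := h3 K hK ⟨(v, w), hvw⟩
  have k1 : k v = t.1 0 0 • v + t.1 0 1 • w := congrArg (fun z : Bs F V => z.1.1) hkt
  have k2 : k w = t.1 1 0 • v + t.1 1 1 • w := congrArg (fun z : Bs F V => z.1.2) hkt
  have hmem : ∀ α β : F, α • v + β • w ∈ L := fun α β => by
    rw [hspan]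
    exact mem_span_pair.2 ⟨α, β, rfl⟩
  have kap : ∀ α β : F, k (α • v + β • w) =
      (α * t.1 0 0 + β * t.1 1 0) • v + (α * t.1 0 1 + β * t.1 1 1) • w := by
    intro α β
    rw [map_add, map_smul, map_smul, k1, k2]
    module
  have hkL : im k L = L := by
    apply im_eq_of_le
    intro u hu
    obtain ⟨z, hz, rfl⟩ := hu
    rw [hspan] at hz
    obtain ⟨α, β, rfl⟩ := mem_span_pair.1 hz
    show k (α • v + β • w) ∈ L
    rw [kap]
    exact hmem _ _
  obtain ⟨x, y, z, u, hxy, e1, e2, e3⟩ := e_fix φ _ _ _ _ (sl_det t) (lam_ne_one φ t ht)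
  have hind := bs_iff.1 hvw
  have hnz : ∀ α β : F, (α ≠ 0 ∨ β ≠ 0) → α • v + β • w ≠ 0 := by
    intro α β hαβ h0
    obtain ⟨h5, h6⟩ := hind α β h0
    rcases hαβ with h7 | h7
    · exact h7 h5
    · exact h7 h6
  -- comparison of points
  have hpar : ∀ α β γ δ : F, (α ≠ 0 ∨ β ≠ 0) → (γ ≠ 0 ∨ δ ≠ 0) →
      ((F ∙ (γ • v + δ • w)) = (F ∙ (α • v + β • w)) ↔ α * δ - β * γ = 0) := by
    intro α β γ δ hαβ hγδ
    constructor
    · intro heq
      have : γ • v + δ • w ∈ F ∙ (α • v + β • w) := by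
        rw [← heq]
        exact mem_span_singleton_self _
      obtain ⟨c, hc⟩ := mem_span_singleton.1 this
      have h5 : (c * α - γ) • v + (c * β - δ) • w = 0 := by
        have : (c * α - γ) • v + (c * β - δ) • w = c • (α • v + β • w) - (γ • v + δ • w) := by
          module
        rw [this, hc, sub_self]
      obtain ⟨h6, h7⟩ := hind _ _ h5
      have h8 : γ = c * α := (sub_eq_zero.1 h6).symm
      have h9 : δ = c * β := (sub_eq_zero.1 h7).symm
      rw [h8, h9]
      ring
    · intro hdet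
      have hle : (F ∙ (γ • v + δ • w)) ≤ (F ∙ (α • v + β • w)) := by
        rw [span_singleton_le_iff_mem, mem_span_singleton]
        rcases hαβ with h5 | h5
        · refine ⟨γ / α, ?_⟩
          have h6 : δ = γ / α * β := by
            field_simp
            linear_combination hdet
          have h7 : γ = γ / α * α := by field_simp
          have : (γ / α) • (α • v + β • w) = (γ / α * α) • v + (γ / α * β) • w := by module
          rw [this, ← h6, ← h7]
        · refine ⟨δ / β, ?_⟩
          have h6 : γ = δ / β * α := by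
            field_simp
            linear_combination -hdet
          have h7 : δ = δ / β * β := by field_simp
          have : (δ / β) • (α • v + β • w) = (δ / β * α) • v + (δ / β * β) • w := by module
          rw [this, ← h6, ← h7]
      exact Pt.eq_of_le (pt_span (hnz _ _ hγδ)) (pt_span (hnz _ _ hαβ)) hle
  have hzu : z ≠ 0 ∨ u ≠ 0 := by
    by_contra hcon
    push Not at hcon
    apply e2
    rw [hcon.1, hcon.2]
    ring
  have himnz : ∀ α β : F, (α ≠ 0 ∨ β ≠ 0) →
      (α * t.1 0 0 + β * t.1 1 0 ≠ 0 ∨ α * t.1 0 1 + β * t.1 1 1 ≠ 0) := by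
    intro α β hαβ
    by_contra hcon
    push Not at hcon
    have h5 := kap α β
    rw [hcon.1, hcon.2, zero_smul, zero_smul, add_zero] at h5
    exact hnz α β hαβ ((LinearEquiv.map_eq_zero_iff k).1 h5)
  refine ⟨k, hk, hkL, F ∙ (x • v + y • w), F ∙ (z • v + u • w), pt_span (hnz _ _ hxy),
    pt_span (hnz _ _ hzu), ?_, ?_, ?_, ?_, ?_⟩
  · rw [span_singleton_le_iff_mem]
    exact hmem _ _
  · rw [span_singleton_le_iff_mem]
    exact hmem _ _
  · rw [im_span_singleton, kap]
    rw [hpar _ _ _ _ hxy (himnz _ _ hxy)]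
    exact e1
  · rw [im_span_singleton, kap]
    intro h5
    rw [hpar _ _ _ _ hzu (himnz _ _ hzu)] at h5
    exact e2 h5
  · rw [im_span_singleton, im_span_singleton, kap, kap]
    intro h5
    rw [hpar _ _ _ _ hzu (himnz _ _ (himnz _ _ hzu))] at h5
    exact e3 h5

end Pool.Agent.Helper74.GL4ES3
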