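import Pool.Agent.Helper79.GL4.GoalsA
import Pool.Agent.Helper79.GL4.GoalsB

/-!
# A stable term of the chain vanishes (polygon case)
-/

set_option linter.unusedVariables false

namespace Pool.Agent.Helper74.GL4STB

open Module Submodule GL4

/-- the natural construction -/
def DD (F : Type) [Field F] (i : ℕ) (W : Type) [AddCommGroup W] [Module F W]
    (G : Subgroup (W ≃ₗ[F] W)) (x : Submodule F W) : Submodule F W :=
  sSup {y | Pt y ∧ Be (Bc G) (Nc G) i y = Be (Bc G) (Nc G) i x}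

section

variable {F : Type} [Field F] {W : Type} [AddCommGroup W] [Module F W]
  {W' : Type} [AddCommGroup W'] [Module F W']

theorem pt_map (φ : W ≃ₗ[F] W') (y : Submodule F W) :
    Pt (y.map (φ : W →ₗ[F] W')) ↔ Pt y := by
  unfold Pt
  rw [LinearEquiv.finrank_map_eq φ y]

theorem map_comap' (φ : W ≃ₗ[F] W') (y : Submodule F W') :
    (y.comap (φ : W →ₗ[F] W')).map (φ : W →ₗ[F] W') = y :=
  Submodule.map_comap_eq_of_surjective φ.surjective y

theorem natl (hN : NAT) (i : ℕ) : Natl F (DD F i) := by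
  intro W W' _ _ _ _ φ G G' hc x
  have key : ∀ y : Submodule F W, Be (Bc G') (Nc G') i (y.map (φ : W →ₗ[F] W')) =
      (Be (Bc G) (Nc G) i y).map (φ : W →ₗ[F] W') := fun y => (hN F W W' φ G G' hc y).2.2.2 i
  apply le_antisymm
  · apply sSup_le
    rintro y' ⟨hy', he⟩
    rw [← map_comap' φ y'] at hy' he ⊢
    apply Submodule.map_mono
    apply le_sSup
    refine ⟨(pt_map φ _).1 hy', ?_⟩
    rw [key, key] at he
    exact Submodule.map_injective_of_injective φ.injective he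
  · rw [Submodule.map_le_iff_le_comap]
    apply sSup_le
    rintro y ⟨hy, he⟩
    rw [← Submodule.map_le_iff_le_comap]
    apply le_sSup
    exact ⟨(pt_map φ y).2 hy, by rw [key, key, he]⟩

theorem conj_self {G : Subgroup (W ≃ₗ[F] W)} {g : W ≃ₗ[F] W} (hg : g ∈ G) : Conj g G G := by
  intro h
  have e : (g.symm.trans h).trans g = g * h * g⁻¹ := rfl
  rw [e]
  constructor
  · intro hh
    exact G.mul_mem (G.mul_mem hg hh) (G.inv_mem hg)
  · intro hh
    have := G.mul_mem (G.mul_mem (G.inv_mem hg) hh) hg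
    have e2 : g⁻¹ * (g * h * g⁻¹) * g = h := by group
    rwa [e2] at this

theorem be_im (hN : NAT) {G : Subgroup (W ≃ₗ[F] W)} {g : W ≃ₗ[F] W} (hg : g ∈ G) (i : ℕ)
    (x : Submodule F W) :
    Be (Bc G) (Nc G) i (im g x) = im g (Be (Bc G) (Nc G) i x) :=
  (hN F W W g G G (conj_self hg) x).2.2.2 i

variable [FiniteDimensional F W]

theorem core (hN : NAT) (hS : SYMC) (G : Subgroup (W ≃ₗ[F] W)) (pg : PG (Bc G) (Nc G))
    (nn : NN G 2 (Nc G)) (bc : BC G 2 (Bc G) (Cc G)) (i : ℕ) (hi : 1 ≤ i)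
    (hst : ∀ x, Pt x → Be (Bc G) (Nc G) (i + 1) x = Be (Bc G) (Nc G) i x) (d : ℕ) (hd : 1 ≤ d)
    (hdim : ∀ x, Pt x → finrank F (Be (Bc G) (Nc G) i x) = d) :
    (∀ x y, Pt x → Pt y → (y ≤ DD F i W G x ↔
      Be (Bc G) (Nc G) i y = Be (Bc G) (Nc G) i x)) ∧
    (∀ x, Pt x → Nc G x ≤ DD F i W G x) ∧ (∀ x, Pt x → DD F i W G x ≠ ⊤) ∧
    (∀ x, Pt x → 4 ≤ finrank F (DD F i W G x)) := by
  obtain ⟨hsym, hdec, _⟩ := hS F W (Bc G) (Nc G) pg
  -- equality from inequality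
  have heq : ∀ x y, Pt x → Pt y → Be (Bc G) (Nc G) i x ≤ Be (Bc G) (Nc G) i y →
      Be (Bc G) (Nc G) i x = Be (Bc G) (Nc G) i y := fun x y hx hy h =>
    Submodule.eq_of_le_of_finrank_eq h (by rw [hdim x hx, hdim y hy])
  -- (1)
  have h1 : ∀ x w, Pt x → Pt w → w ≤ Nc G x →
      Be (Bc G) (Nc G) i w = Be (Bc G) (Nc G) i x := by
    intro x w hx hw hwx
    symm
    apply heq x w hx hw
    rw [← hst x hx]
    obtain ⟨j, rfl⟩ : ∃ j, i = j + 1 := ⟨i - 1, by omega⟩
    show (⨅ w : {w : Submodule F W // Pt w ∧ w ≤ Nc G x}, Be (Bc G) (Nc G) (j + 1) w.1) ≤ _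
    exact iInf_le (fun w : {w : Submodule F W // Pt w ∧ w ≤ Nc G x} =>
      Be (Bc G) (Nc G) (j + 1) w.1) ⟨w, hw, hwx⟩
  -- (2)
  have h2 : ∀ x y, Pt x → Pt y → (y ≤ DD F i W G x ↔
      Be (Bc G) (Nc G) i y = Be (Bc G) (Nc G) i x) := by
    intro x y hx hy
    let U : Submodule F W := ⨅ u : {u : Submodule F W // Pt u ∧ u ≤ Be (Bc G) (Nc G) i x},
      Be (Bc G) (Nc G) i u.1
    have hU : ∀ z, Pt z → (z ≤ U ↔ Be (Bc G) (Nc G) i z = Be (Bc G) (Nc G) i x) := by
      intro z hz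
      constructor
      · intro hzU
        symm
        apply heq x z hx hz
        apply le_of_pts
        intro u hu hux
        have : z ≤ Be (Bc G) (Nc G) i u := hzU.trans (iInf_le
          (fun u : {u : Submodule F W // Pt u ∧ u ≤ Be (Bc G) (Nc G) i x} =>
            Be (Bc G) (Nc G) i u.1) ⟨u, hu, hux⟩)
        exact hsym i u z hu hz this
      · intro hzx
        apply le_iInf
        rintro ⟨u, hu, hux⟩
        rw [← hzx] at hux
        exact hsym i z u hz hu hux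
    have hYU : DD F i W G x = U := by
      apply le_antisymm
      · apply sSup_le
        rintro z ⟨hz, hzx⟩
        exact (hU z hz).2 hzx
      · apply le_of_pts
        intro z hz hzU
        exact le_sSup ⟨hz, (hU z hz).1 hzU⟩
    rw [hYU]
    exact hU y hy
  have h3 : ∀ x, Pt x → Nc G x ≤ DD F i W G x := by
    intro x hx
    apply le_of_pts
    intro w hw hwx
    exact (h2 x w hx hw).2 (h1 x w hx hw hwx)
  refine ⟨h2, h3, ?_, ?_⟩
  · intro x hx htop
    have hall : ∀ y, Pt y → Be (Bc G) (Nc G) i y = Be (Bc G) (Nc G) i x := fun y hy =>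
      (h2 x y hx hy).1 (by rw [htop]; exact le_top)
    have hnb : Be (Bc G) (Nc G) i x ≠ ⊥ := by
      intro h0
      have := hdim x hx
      rw [h0, finrank_bot] at this
      omega
    obtain ⟨u, hu, hux⟩ := exists_pt_le hnb
    have hT : (⊤ : Submodule F W) ≤ Be (Bc G) (Nc G) i x := by
      apply le_of_pts
      intro z hz _
      obtain ⟨g, hg, rfl⟩ := bc.ptT u z hu hz
      have e1 := im_mono g hux
      rw [← be_im hN hg, hall _ (Pt.im hx)] at e1
      exact e1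
    have hle : ∀ j, Be (Bc G) (Nc G) (j + 1) x ≤ Bc G x := by
      intro j
      induction j with
      | zero => exact le_rfl
      | succ j ih => exact (hdec (j + 1) x hx).trans ih
    have hB : (⊤ : Submodule F W) ≤ Bc G x := by
      obtain ⟨j, rfl⟩ : ∃ j, i = j + 1 := ⟨i - 1, by omega⟩
      exact hT.trans (hle j)
    have := pg.dimB x hx
    rw [top_le_iff.1 hB, finrank_top] at this
    omega
  · intro x hx
    by_contra hlt
    push Not at hlt
    have hN3 := pg.dimN x hx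
    have hDx : Nc G x = DD F i W G x := by
      apply Submodule.eq_of_le_of_finrank_le (h3 x hx)
      omega
    obtain ⟨y, hy, hyN, hyx⟩ : ∃ y, Pt y ∧ y ≤ Nc G x ∧ ¬ y ≤ x := by
      apply exists_pt_not_le
      intro h
      have := Submodule.finrank_mono h
      rw [hN3, hx] at this
      omega
    have hne : y ≠ x := fun h => hyx (by rw [h])
    have hyD : DD F i W G y = DD F i W G x := by
      have := (h2 x y hx hy).1 ((hyN.trans (h3 x hx)))
      unfold DD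
      rw [this]
    have hDy : Nc G y = DD F i W G y := by
      apply Submodule.eq_of_le_of_finrank_le (h3 y hy)
      rw [hyD, pg.dimN y hy]
      omega
    exact pg.ne x y hx hy hyN hne (by rw [hDy, hyD, hDx])

end

theorem stb (hBLK : BLK) (hNAT : NAT) (hLFT : LFT) (hSYMC : SYMC) (hSLT : SLT) : STB := by
  intro F _ _ V _ _ _ K h4 hK hMT hP P0 hP0 i hi hst x1 hx1
  by_contra hne
  -- flags
  have other : ∀ P L : Submodule F V, Pt P → Ln L → P ≤ L →
      ∃ Q, Pt Q ∧ Q ≤ L ∧ Q ≠ P ∧ L = P ⊔ Q := by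
    intro P L hP hL hPL
    obtain ⟨Q, hQ, hQL, hQP⟩ : ∃ Q, Pt Q ∧ Q ≤ L ∧ ¬ Q ≤ P := by
      apply exists_pt_not_le
      intro h
      have := Submodule.finrank_mono h
      rw [hL, hP] at this
      omega
    refine ⟨Q, hQ, hQL, fun h => hQP (by rw [h]), ?_⟩
    symm
    apply Submodule.eq_of_le_of_finrank_eq (sup_le hPL hQL)
    rw [finrank_sup_pt hQ hQP, hP, hL]
  have flag : ∀ P L P' L' : Submodule F V, Pt P → Ln L → P ≤ L → Pt P' → Ln L' → P' ≤ L' →
      ∃ k ∈ K, im k P = P' ∧ im k L = L' := by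
    intro P L P' L' hP hL hPL hP' hL' hPL'
    obtain ⟨Q, hQ, _, hQP, e1⟩ := other P L hP hL hPL
    obtain ⟨Q', hQ', _, hQP', e2⟩ := other P' L' hP' hL' hPL'
    obtain ⟨k, hk, k1, k2⟩ := hK P Q P' Q' hP hQ hP' hQ' hQP.symm hQP'.symm
    exact ⟨k, hk, k1, by rw [e1, im_sup, k1, k2, e2]⟩
  have hL0 : Ln (x1.comap P0.mkQ) := Pt.up hx1 hP0
  set L0 : Submodule F V := x1.comap P0.mkQ with hL0def
  have hP0L0 : P0 ≤ L0 := le_up x1
  have hL0x : L0.map P0.mkQ = x1 := down_up x1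
  set d := finrank F (Be (Bc (qGrp K P0)) (Nc (qGrp K P0)) i x1) with hd
  have hd1 : 1 ≤ d := by
    rw [hd, Nat.one_le_iff_ne_zero]
    intro h0
    exact hne (Submodule.finrank_eq_zero.1 h0)
  -- a line through every point
  have lineof : ∀ P : Submodule F V, Pt P → ∃ L, Ln L ∧ P ≤ L := by
    intro P hP
    obtain ⟨Q, hQ, _, hQP⟩ : ∃ Q, Pt Q ∧ Q ≤ ⊤ ∧ ¬ Q ≤ P := by
      apply exists_pt_not_le
      intro h
      have := Submodule.finrank_mono h
      rw [finrank_top, hP] at this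
      omega
    exact ⟨P ⊔ Q, ln_sup hP hQ (fun h => hQP (by rw [h])), le_sup_left⟩
  -- transfer
  have hd0 : ∀ x, Pt x → finrank F (Be (Bc (qGrp K P0)) (Nc (qGrp K P0)) i x) = d := by
    intro x hx
    obtain ⟨g, hg, rfl⟩ := (hP P0 hP0).2.2.ptT x1 x hx1 hx
    rw [be_im hNAT hg, finrank_im]
  have tr : ∀ P, Pt P →
      (∀ x, Pt x → Be (Bc (qGrp K P)) (Nc (qGrp K P)) (i + 1) x =
        Be (Bc (qGrp K P)) (Nc (qGrp K P)) i x) ∧
      (∀ x, Pt x → finrank F (Be (Bc (qGrp K P)) (Nc (qGrp K P)) i x) = d) := by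
    intro P hPp
    obtain ⟨L, hL, hPL⟩ := lineof P hPp
    obtain ⟨k, hk, hkP, _⟩ := flag P0 L0 P L hP0 hL0 hP0L0 hPp hL hPL
    obtain ⟨φ, _, hconj⟩ := (hLFT F (DD F i) (natl hNAT i) V K k hk).2.1 P0 P hkP
    have key := hNAT F (V ⧸ P0) (V ⧸ P) φ (qGrp K P0) (qGrp K P) hconj
    constructor
    · intro x hx
      rw [← map_comap' φ x] at hx ⊢
      have hx' := (pt_map φ _).1 hx
      rw [(key _).2.2.2 (i + 1), (key _).2.2.2 i, hst _ hx']
    · intro x hx
      rw [← map_comap' φ x] at hx ⊢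
      have hx' := (pt_map φ _).1 hx
      rw [(key _).2.2.2 i, LinearEquiv.finrank_map_eq, hd0 _ hx']
  have cor : ∀ P, Pt P → _ := fun P hPp =>
    core hNAT hSYMC (qGrp K P) (hP P hPp).1 (hP P hPp).2.1 (hP P hPp).2.2 i hi (tr P hPp).1 d hd1
      (tr P hPp).2
  -- the blocks
  set Z := lft (DD F i) K with hZ
  have hZeq : ∀ k ∈ K, ∀ P L, Pt P → Ln L → P ≤ L → Z (im k P) (im k L) = im k (Z P L) :=
    fun k hk P L _ _ _ => (hLFT F (DD F i) (natl hNAT i) V K k hk).1 P L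
  set e := finrank F (DD F i (V ⧸ P0) (qGrp K P0) x1) with he
  have hZ0 : Z P0 L0 = (DD F i (V ⧸ P0) (qGrp K P0) x1).comap P0.mkQ := by
    show (DD F i (V ⧸ P0) (qGrp K P0) (L0.map P0.mkQ)).comap P0.mkQ = _
    rw [hL0x]
  have hfin0 : finrank F (Z P0 L0) = e + 1 := by
    rw [hZ0, finrank_up, hP0]
  have he4 : 4 ≤ e := (cor P0 hP0).2.2.2 x1 hx1
  have hquot := Submodule.finrank_quotient_add_finrank P0
  rw [hP0] at hquot
  have helt : e + 1 < finrank F V := by
    have h1 := (cor P0 hP0).2.2.1 x1 hx1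
    have h2 : e < finrank F (V ⧸ P0) := Submodule.finrank_lt h1
    omega
  have hblk := hBLK F V K (by omega) hK Z e (by omega) helt hZeq (by
      intro P L hPp hL hPL
      constructor
      · show L ≤ (DD F i (V ⧸ P) (qGrp K P) (L.map P.mkQ)).comap P.mkQ
        rw [← down_le_iff]
        exact ((cor P hPp).1 _ _ (Ln.down hL hPL hPp) (Ln.down hL hPL hPp)).2 rfl
      · obtain ⟨k, hk, k1, k2⟩ := flag P0 L0 P L hP0 hL0 hP0L0 hPp hL hPL
        rw [← k1, ← k2, hZeq k hk P0 L0 hP0 hL0 hP0L0, finrank_im, hfin0]) (by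
      intro P L M hPp hL hM hPL hPM hMZ
      have h1 : M.map P.mkQ ≤ DD F i (V ⧸ P) (qGrp K P) (L.map P.mkQ) := down_le_iff.2 hMZ
      have h2 := ((cor P hPp).1 _ _ (Ln.down hL hPL hPp) (Ln.down hM hPM hPp)).1 h1
      show (DD F i (V ⧸ P) (qGrp K P) (M.map P.mkQ)).comap P.mkQ =
        (DD F i (V ⧸ P) (qGrp K P) (L.map P.mkQ)).comap P.mkQ
      have h3 : DD F i (V ⧸ P) (qGrp K P) (M.map P.mkQ) =
          DD F i (V ⧸ P) (qGrp K P) (L.map P.mkQ) := by
        unfold DD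
        rw [h2]
      rw [h3])
  have htt : TwoTrans (sGrp K (Z P0 L0)) := hblk.2.1 P0 L0 hP0 hL0 hP0L0
  have hSL : HasSL (sGrp K (Z P0 L0)) := by
    rcases hMT (e + 1) (by omega) helt (Z P0 L0) hfin0 (sGrp K (Z P0 L0)) htt with h | h
    · exact h
    · omega
  -- contradiction
  have hN3 := (hP P0 hP0).1.dimN x1 hx1
  obtain ⟨y, hy, hyN, hyx⟩ : ∃ y, Pt y ∧ y ≤ Nc (qGrp K P0) x1 ∧ ¬ y ≤ x1 := by
    apply exists_pt_not_le
    intro h
    have := Submodule.finrank_mono h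
    rw [hN3, hx1] at this
    omega
  obtain ⟨z, hz, hzD, hzN⟩ : ∃ z, Pt z ∧ z ≤ DD F i (V ⧸ P0) (qGrp K P0) x1 ∧
      ¬ z ≤ Nc (qGrp K P0) x1 := by
    apply exists_pt_not_le
    intro h
    have := Submodule.finrank_mono h
    rw [hN3, ← he] at this
    omega
  have hyD : y ≤ DD F i (V ⧸ P0) (qGrp K P0) x1 := hyN.trans ((cor P0 hP0).2.1 x1 hx1)
  have hinj : ∀ a b : Submodule F (V ⧸ P0), a.comap P0.mkQ = b.comap P0.mkQ → a = b := by
    intro a b h
    rw [← down_up a, h, down_up]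
  obtain ⟨k, hk, k1, k2, k3⟩ := hSLT F V K (Z P0 L0) hSL P0 L0 (y.comap P0.mkQ) P0 L0
    (z.comap P0.mkQ) hP0 hL0 (Pt.up hy hP0) hP0 hL0 (Pt.up hz hP0) hP0L0 (le_up y)
    (fun h => hyx (by rw [hinj _ _ h])) hP0L0 (le_up z)
    (fun h => hzN (by rw [← hinj _ _ h]; exact (hP P0 hP0).1.selfN x1 hx1))
    (by
      rw [hZ0]
      exact up_le_up.2 (((cor P0 hP0).1 _ _ hx1 hx1).2 rfl))
    (by rw [hZ0]; exact up_le_up.2 hyD)
    (by
      rw [hZ0]
      exact up_le_up.2 (((cor P0 hP0).1 _ _ hx1 hx1).2 rfl))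
    (by rw [hZ0]; exact up_le_up.2 hzD)
  obtain ⟨g, hg, hgk⟩ := exists_qGrp hk k1
  have g1 : im g x1 = x1 := by
    have := im_down hgk L0
    rw [k2, hL0x] at this
    exact this
  have g2 : im g y = z := by
    have := im_down hgk (y.comap P0.mkQ)
    rw [k3, down_up, down_up] at this
    exact this
  apply hzN
  rw [← g2]
  have h5 := (hP P0 hP0).2.1.eqN g hg x1 hx1
  rw [g1] at h5
  rw [h5]
  exact im_mono g hyN

end Pool.Agent.Helper74.GL4STB
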